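import Pool.Agent.P.MP_e4fe5e_lc.Main
import Pool.Agent.P.MP_e4fe5e_lc.Sep

namespace Pool.Agent.Results.MP_e4fe5e_lc.NoPolyKernel

open Pool.Agent.P.MP_e4fe5e_lc

/-- CONVEX SET IN 3D has no polynomial kernel unless NP is contained in coNP/poly. -/
theorem result : HasPolyKernel → N68a2faeb.NP ⊆ coNPpoly := main

/-- If every NP language is decided in polynomial time, there is a kernel with parameter 1 and at
most one point. -/
theorem kernel_of_NP_easy (h : ∀ L ∈ N68a2faeb.NP, N68a2faeb.IsPolyTime L) :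
    ∃ K : Instance → Instance, N68a2faeb.IsPolyTime K ∧ ∀ I, Valid I →
      Valid (K I) ∧ (Yes I ↔ Yes (K I)) ∧ (K I).2 = 1 ∧ (K I).1.length ≤ 1 := Sep.kernel h

/-- An unconditional negative answer separates NP from polynomial time. -/
theorem no_kernel_separates (h : ¬ HasPolyKernel) :
    ∃ L ∈ N68a2faeb.NP, ¬ N68a2faeb.IsPolyTime L := Sep.separates h

/-- Legal yes-instances and legal no-instances exist. -/
theorem yes_and_no : (∃ I, Valid I ∧ Yes I) ∧ ∃ I, Valid I ∧ ¬ Yes I :=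
  ⟨⟨_, Sep.valid_one⟩, ⟨_, Sep.valid_zero⟩⟩

end Pool.Agent.Results.MP_e4fe5e_lc.NoPolyKernel
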